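import Pool.Agent.MP_06b47d_co.W4.Base

namespace Pool.Agent.Results.MP_06b47d_co.FaceWidthFour

open Pool.Agent.MP_06b47d_co

/-- For every genus `g ≥ 4` there is a simple triangulation in which every triangle of the graph
bounds a face and whose dual is not 3-edge-colourable. -/
theorem result : ∀ g : ℕ, 4 ≤ g →
    ∃ (V : Type) (_ : Finite V) (G : SimpleGraph V) (R : RotationSystem G),
      R.HasGenus g ∧ R.IsTriangulation ∧
      (∀ (a b c : V) (hab : G.Adj a b), G.Adj b c → G.Adj c a →
        (R.face ⟨(a, b), hab⟩).snd = c ∨ (R.face ⟨(b, a), hab.symm⟩).snd = c) ∧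
      ¬ R.DualColourable :=
  fun _ h => (W4.good_ge h).ex

end Pool.Agent.Results.MP_06b47d_co.FaceWidthFour
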