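import Pool.Agent.Mg.F06b47d.Gb1d3a4

namespace Pool.Agent.Results.MP_06b47d_co.GenusThree

/-- Property `(G_g)` fails for every genus `g ≥ 3`. -/
theorem result : ∀ g : ℕ, 3 ≤ g → ¬ Pool.Agent.MP_06b47d_co.Grunbaum g :=
  fun _ h => (Pool.Agent.MP_06b47d_co.good_ge h).not_grunbaum

end Pool.Agent.Results.MP_06b47d_co.GenusThree
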